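import Pool.Agent.D0H50.Kak.Full
import Pool.Agent.H805R3.Kk.Skew

set_option autoImplicit false

/-!
# MP_5168f5: Kakeya maximal estimates multiply under extensions of families of lines

Work in `ℝ^{d+1} = ℝ^d × ℝ` (`Space d`).  For `v` in the closed unit ball of `ℝ^d` the line number `v`
of the family given by `b : ℝ^d → ℝ^d` is `{(b v + s v, s) : s ∈ ℝ}`; its direction is `(v, 1)`.
`lineMax δ b f v` is the supremum of the averages of `|f|` over the `δ`-tubes of length one with axis
on the line number `v`.  `Est T p δ K B b` is the estimate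

  `∫_B (lineMax δ b f)^p ≤ K ∫ |f|^p`   for all measurable `f` living at heights in `T`;

the Kakeya maximal conjecture is this estimate for all measurable `b`, `p = d + 1`, with
`K = C_ε δ^{-ε}`.

Let `ℝ^{m+n+1} → ℝ^{m+1}` be the projection that forgets `n` coordinates (not the height).  The family
`b = ext b₁ b₂` of `ℝ^{m+n+1}` is an *extension* of the family `b₁` of `ℝ^{m+1}` if the lines of `b` are
projected to the lines of `b₁`; over a given line, number `a`, of `b₁`, the lines form a family `b₂ a`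
of `ℝ^{n+1}`, which may depend on `a` in an arbitrary (measurable) way.

* **Composition law.**  If `b₁` satisfies the `L^{p₁}` estimate with the constant `K₁` and all the
  families `b₂ a` satisfy the `L^{p₂}` estimate with the constant `K₂`, then the extension satisfies
  the `L^{p₁ + p₂ - 1}` estimate with the constant `C K₁ K₂`; `C` depends only on `m, n, p₁, p₂`.  In
  particular critical exponents `m + 1`, `n + 1` give the critical exponent `m + n + 1`.

* **All tubes along the fibres.**  If `b₁` satisfies the `L^{p₁}` estimate with the constant `K₁` and all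
  measurable families of `ℝ^{n+1}` satisfy the `L^{p₂}` estimate with the constant `K₂`, then the maximal
  function over *all* tubes whose projections to `ℝ^{m+1}` follow the lines of `b₁` (no choice of
  positions in the last `n` coordinates) satisfies the `L^{p₁ + p₂ - 1}` estimate with the constant
  `C K₁ K₂`.  For `n = 1`, `p₂ = 2` this is unconditional, with `K₂ = 1 + log (1/δ)` (Córdoba).

* **Closure.**  `Built T δ d A B b`: the family is built with total cost `A` from arbitrary measurable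
  families in the plane (cost `1`) and families for which the critical estimate is known with the
  constant `A (1 + log (1/δ))^d` (cost `A`; for instance section-monotone families, families of finite
  overlap, continuous families of pairwise disjoint lines in `ℝ³`), by extensions (costs are
  multiplied), finite unions (costs are added) and rotations of `ℝ^d`; the fibres may be built in
  different ways.  All these families satisfy the estimate of the Kakeya conjecture at the critical
  exponent with the constant `C A (1 + log (1/δ))^d`, where `C` depends on `d` only.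

* **Example** in `ℝ⁵`: if the lines of `b₁` are pairwise disjoint in `ℝ³`, depend continuously on the
  direction, and for every `a` the same holds for the lines of `b₂ a`, then the estimate holds for
  the family `ext b₁ b₂` of `ℝ⁵`, however irregular the dependence of `b₂ a` on `a` is.

Proof of the composition law.  For fixed `a` let `c t` be the line number `a` of `b₁` and let
`ω(w, t) = (∫ |f(c t + w, y, t)|^p dy)^{1/p₁}`, `p = p₁ + p₂ - 1`, `Z = ∫∫ ω dw dt` (averages over
`|w| ≤ δ`).  By Hölder's inequality with the weight `ω` the integral of `f` along a tube over `c` is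
at most `Z^{1 - p₂/p}` times a power of the integral along the tube of the function
`∫ f^{p/p₂} ω^{1 - p/p₂} dw` in the fibre; the estimate of the fibre family and another application of
Hölder's inequality give `∫ (M f)(a, c)^p dc ≤ K₂ Z^{p₁}`, and `Z` is the value at `a` of the operator of
`b₁` at the function `(∫ |f(·, y, ·)|^p dy)^{1/p₁}`.  The second part follows by measurable selection.
-/

open MeasureTheory Set Filter Topology ENNReal NNReal Metric

namespace Pool.Agent.Results.MP_5168f5_an.ExtensionsOfFamilies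

open Pool.Agent.H803R2.KakFTO Pool.Agent.H805R3.Kk
open Pool.Agent.D0H50.Kak (hd glue ext Est Built VanishesOff fibreMax)

/-- The base of an extension: the measurable family `b₁` of `ℝ^{m+1}` over the set `B₁` of directions,
and a set `B` of directions of `ℝ^{m+n+1}` that is projected into `B₁`. -/
structure Base {m n : ℕ} (B₁ : Set (Vec m)) (b₁ : Vec m → Vec m) (B : Set (Vec (m + n))) :
    Prop where
  meas_base : MeasurableSet B₁
  base_subset : B₁ ⊆ closedBall 0 1
  meas_b₁ : Measurable b₁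
  meas_total : MeasurableSet B
  total_subset : B ⊆ closedBall 0 1
  hd_mem : ∀ v ∈ B, hd v ∈ B₁

/-- The `L^p` estimate with the constant `K` for the maximal function over all the tubes of `ℝ^{m+n+1}`
with directions in `B` whose projections to `ℝ^{m+1}` follow the lines of the family `b₁`. -/
def FibreEst {m n : ℕ} (T : Set ℝ) (p δ K : ℝ) (B : Set (Vec (m + n))) (b₁ : Vec m → Vec m) :
    Prop :=
  ∀ f : Space (m + n) → ℝ, AEMeasurable f volume → VanishesOff T f →
    ∫⁻ v in B, fibreMax δ b₁ f v ^ p ≤ ENNReal.ofReal K * ∫⁻ y, ‖f y‖ₑ ^ p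

/-- The `L^p` estimate with the constant `K` for all measurable families of lines of `ℝ^{n+1}`. -/
def AllFamilies (n : ℕ) (T : Set ℝ) (p δ K : ℝ) : Prop :=
  ∀ β : Vec n → Vec n, Measurable β → Est T p δ K (closedBall 0 1) β

/-- A continuous family of pairwise disjoint lines in `ℝ³`. -/
def DisjointLines (b : Vec 2 → Vec 2) : Prop :=
  ContinuousOn b (ball 0 1) ∧ ∀ v ∈ ball (0 : Vec 2) 1, ∀ w ∈ ball (0 : Vec 2) 1, v ≠ w →
    ∀ t : ℝ, b v + t • v ≠ b w + t • w

theorem est_disjoint {b : Vec 2 → Vec 2} (h : DisjointLines b) {δ : ℝ} (hδ : 0 < δ) (hδ1 : δ < 1) :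
    Est univ ((2 : ℕ) + 1) δ (cst 2 * (1 + Real.log (1 / δ)) ^ 2) (ball 0 1) b := by
  intro f hf _
  have h1 := pieces (d := 2) (N := 1) (T := univ) (B := fun _ => ball 0 1)
    (g := fun _ => b) (b := b) (δ := δ) (f := f) (by norm_num) MeasurableSet.univ
    (fun _ => ⟨measurableSet_ball, ball_subset_closedBall⟩)
    (fun _ => sectionMonotone_of_disjoint h.1 h.2) (fun _ v _ => by simpa using hδ.le) hδ hδ1 hf
    (fun _ _ h => absurd (mem_univ _) h)
  rw [iUnion_const] at h1
  have e : ∀ x : ℝ≥0∞, x ^ (((2 : ℕ) : ℝ) + 1) = x ^ (2 + 1) := by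
    intro x
    have := ENNReal.rpow_natCast x (2 + 1)
    push_cast at this
    exact_mod_cast this
  simp only [e]
  simpa using h1

theorem built_disjoint {b : Vec 2 → Vec 2} (hb : Measurable b) (h : DisjointLines b) {δ : ℝ}
    (hδ : 0 < δ) (hδ1 : δ < 1) {B : Set (Vec 2)} (hB : MeasurableSet B) (hBb : B ⊆ ball 0 1) :
    Built univ δ 2 (cst 2) B b := by
  refine Built.known 2 (cst 2) B b (by norm_num) (cst_pos (by norm_num)) hB
    (hBb.trans ball_subset_closedBall) hb ?_
  intro f hf hfT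
  exact (lintegral_mono_set hBb).trans (est_disjoint h hδ hδ1 f hf hfT)

/-- **Kakeya maximal estimates multiply under extensions of families of lines.**

* (composition law) `L^{p₁}` for the base and `L^{p₂}` for the fibres give `L^{p₁ + p₂ - 1}` for the
  extension, with the product of the constants;
* (all tubes along the fibres) the same for the maximal function over all tubes whose projections
  follow the base family, if the estimate holds for all families of `ℝ^{n+1}`; and, for `n = 1`, with the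
  constant `C K₁ (1 + log (1/δ))` at the exponent `p₁ + 1`;
* (closure) every family that is built with the cost `A` satisfies the estimate of the Kakeya
  conjecture at the critical exponent, with the constant `C A (1 + log (1/δ))^d`;
* (example) extensions in `ℝ⁵` of continuous families of pairwise disjoint lines in `ℝ³`. -/
theorem result :
    (∀ (m n : ℕ) (p₁ p₂ : ℝ), 1 ≤ p₁ → 1 ≤ p₂ → ∃ C : ℝ, 0 < C ∧
      ∀ (T : Set ℝ) (δ K₁ K₂ : ℝ) (B₁ : Set (Vec m)) (b₁ : Vec m → Vec m)
        (B : Set (Vec (m + n))), MeasurableSet T → 0 < δ → δ < 1 → 0 ≤ K₁ → 0 < K₂ →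
        Base B₁ b₁ B → Est T p₁ δ K₁ B₁ b₁ →
        (∀ b₂ : Vec m → Vec n → Vec n, Measurable (fun x : Vec m × Vec n => b₂ x.1 x.2) →
          (∀ a ∈ B₁, Est T p₂ δ K₂ {c | glue a c ∈ B} (b₂ a)) →
          Est T (p₁ + p₂ - 1) δ (C * (K₁ * K₂)) B (ext b₁ b₂)) ∧
        (AllFamilies n T p₂ δ K₂ → FibreEst T (p₁ + p₂ - 1) δ (C * (K₁ * K₂)) B b₁)) ∧
    (∀ (m : ℕ) (p₁ : ℝ), 1 ≤ p₁ → ∃ C : ℝ, 0 < C ∧
      ∀ (T : Set ℝ) (δ K₁ : ℝ) (B₁ : Set (Vec m)) (b₁ : Vec m → Vec m)
        (B : Set (Vec (m + 1))), MeasurableSet T → 0 < δ → δ < 1 → 0 ≤ K₁ →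
        Base B₁ b₁ B → Est T p₁ δ K₁ B₁ b₁ →
        FibreEst T (p₁ + 1) δ (C * (K₁ * (1 + Real.log (1 / δ)))) B b₁) ∧
    (∀ d : ℕ, ∃ C : ℝ, 0 < C ∧ ∀ (T : Set ℝ) (δ A : ℝ) (B : Set (Vec d)) (b : Vec d → Vec d),
      MeasurableSet T → 0 < δ → δ < 1 → Built T δ d A B b →
      Est T (d + 1) δ (C * A * (1 + Real.log (1 / δ)) ^ d) B b) ∧
    (∃ C : ℝ, 0 < C ∧ ∀ (b₁ : Vec 2 → Vec 2) (b₂ : Vec 2 → Vec 2 → Vec 2) (δ : ℝ),
      Measurable b₁ → Measurable (fun x : Vec 2 × Vec 2 => b₂ x.1 x.2) → DisjointLines b₁ →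
      (∀ a ∈ ball (0 : Vec 2) 1, DisjointLines (b₂ a)) → 0 < δ → δ < 1 →
      Est univ 5 δ (C * (1 + Real.log (1 / δ)) ^ 4) (ball (0 : Vec (2 + 2)) 1) (ext b₁ b₂)) := by
  have hfull : ∀ (m n : ℕ) (p₁ p₂ : ℝ), 1 ≤ p₁ → 1 ≤ p₂ →
      ∀ (T : Set ℝ) (δ K₁ K₂ : ℝ) (B₁ : Set (Vec m)) (b₁ : Vec m → Vec m)
        (B : Set (Vec (m + n))), MeasurableSet T → 0 < δ → δ < 1 → 0 ≤ K₁ → 0 < K₂ →
        Base B₁ b₁ B → Est T p₁ δ K₁ B₁ b₁ → AllFamilies n T p₂ δ K₂ →
        FibreEst T (p₁ + p₂ - 1) δ (Pool.Agent.D0H50.Kak.cfm m n p₁ p₂ * (K₁ * K₂)) B b₁ := by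
    intro m n p₁ p₂ h1 h2 T δ K₁ K₂ B₁ b₁ B hT hδ hδ1 hK₁ hK₂ hE S₁ S₂ f hf hfT
    exact Pool.Agent.D0H50.Kak.full_fibre hT h1 h2 hδ hδ1 hE.meas_b₁ hE.meas_total
      hE.total_subset hE.meas_base hE.base_subset hE.hd_mem hK₁ hK₂ S₁ S₂ hf hfT
  have hmono : ∀ {m n : ℕ} {T : Set ℝ} {p δ K K' : ℝ} {B : Set (Vec (m + n))} {b₁ : Vec m → Vec m},
      FibreEst T p δ K B b₁ → K ≤ K' → FibreEst T p δ K' B b₁ := by
    intro m n T p δ K K' B b₁ h hK f hf hfT
    refine (h f hf hfT).trans ?_
    gcongr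
  refine ⟨?_, ?_, Pool.Agent.D0H50.Kak.built_est, ?_⟩
  · intro m n p₁ p₂ h1 h2
    have hc0 : 0 ≤ Pool.Agent.D0H50.Kak.ccl m n p₁ p₂ := ENNReal.toReal_nonneg
    have hc1 : 0 ≤ Pool.Agent.D0H50.Kak.cfm m n p₁ p₂ := ENNReal.toReal_nonneg
    refine ⟨Pool.Agent.D0H50.Kak.ccl m n p₁ p₂ + Pool.Agent.D0H50.Kak.cfm m n p₁ p₂ + 1,
      by linarith, ?_⟩
    intro T δ K₁ K₂ B₁ b₁ B hT hδ hδ1 hK₁ hK₂ hE S₁
    have hKK : 0 ≤ K₁ * K₂ := mul_nonneg hK₁ hK₂.le
    refine ⟨fun b₂ hb₂ S₂ => ?_, fun S₂ => ?_⟩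
    · refine (Pool.Agent.D0H50.Kak.composition hT h1 h2 hδ hδ1 hE.meas_b₁ hb₂ hE.meas_total
        hE.total_subset hE.meas_base hE.base_subset hE.hd_mem hK₁ hK₂ S₁ S₂).mono ?_
      exact mul_le_mul_of_nonneg_right (by linarith) hKK
    · refine hmono (hfull m n p₁ p₂ h1 h2 T δ K₁ K₂ B₁ b₁ B hT hδ hδ1 hK₁ hK₂ hE S₁ S₂) ?_
      exact mul_le_mul_of_nonneg_right (by linarith) hKK
  · intro m p₁ h1
    obtain ⟨C, hC, h⟩ := Pool.Agent.D0H50.Kak.est_plane
    have hc1 : 0 ≤ Pool.Agent.D0H50.Kak.cfm m 1 p₁ 2 := ENNReal.toReal_nonneg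
    refine ⟨(Pool.Agent.D0H50.Kak.cfm m 1 p₁ 2 + 1) * C, by positivity, ?_⟩
    intro T δ K₁ B₁ b₁ B hT hδ hδ1 hK₁ hE S₁
    have hlog : 0 ≤ Real.log (1 / δ) := Real.log_nonneg (by rw [le_div_iff₀ hδ]; linarith)
    have hL : 0 < C * (1 + Real.log (1 / δ)) := by positivity
    have h3 := hfull m 1 p₁ 2 h1 (by norm_num) T δ K₁ (C * (1 + Real.log (1 / δ))) B₁ b₁ B hT hδ hδ1
      hK₁ hL hE S₁ (fun β hβ => h T δ _ β hT hδ hδ1 measurableSet_closedBall subset_rfl hβ)
    have e : p₁ + 2 - 1 = p₁ + 1 := by ring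
    rw [e] at h3
    refine hmono h3 ?_
    have h4 : 0 ≤ K₁ * (C * (1 + Real.log (1 / δ))) := mul_nonneg hK₁ hL.le
    calc _ ≤ (Pool.Agent.D0H50.Kak.cfm m 1 p₁ 2 + 1) * (K₁ * (C * (1 + Real.log (1 / δ)))) :=
          mul_le_mul_of_nonneg_right (by linarith) h4
      _ = _ := by ring
  · obtain ⟨C, hC, h⟩ := Pool.Agent.D0H50.Kak.built_est (2 + 2)
    refine ⟨C * (cst 2 * cst 2), by have := cst_pos (d := 2) (by norm_num); positivity, ?_⟩
    intro b₁ b₂ δ hb₁ hb₂ h₁ h₂ hδ hδ1
    have hBu : Built univ δ (2 + 2) (cst 2 * cst 2) (ball (0 : Vec (2 + 2)) 1) (ext b₁ b₂) := by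
      refine Built.extend 2 2 (cst 2) (cst 2) (ball 0 1) b₁ _ b₂ (by norm_num)
        (cst_pos (by norm_num)) measurableSet_ball ball_subset_closedBall hb₂ ?_
        (built_disjoint hb₁ h₁ hδ hδ1 measurableSet_ball subset_rfl) ?_
      · intro v hv
        have h3 := Pool.Agent.D0H50.Kak.norm_hd_le v
        rw [mem_ball_zero_iff] at hv ⊢
        linarith
      · intro a ha
        have hba : Measurable (b₂ a) := hb₂.comp (by fun_prop : Measurable (fun c : Vec 2 => (a, c)))
        refine built_disjoint hba (h₂ a ha) hδ hδ1 ?_ ?_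
        · exact measurableSet_ball.preimage (Pool.Agent.D0H50.Kak.measurable_glue.comp
            (by fun_prop : Measurable (fun c : Vec 2 => (a, c))))
        · intro c hc
          have h4 : ‖glue a c‖ < 1 := by simpa using hc
          have h5 := Pool.Agent.D0H50.Kak.norm_tl_le (glue a c)
          rw [Pool.Agent.D0H50.Kak.tl_glue] at h5
          rw [mem_ball_zero_iff]
          linarith
    have h6 := h univ δ _ _ _ MeasurableSet.univ hδ hδ1 hBu
    have e5 : (((2 + 2 : ℕ) : ℝ) + 1) = 5 := by norm_num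
    rw [e5] at h6
    exact h6

end Pool.Agent.Results.MP_5168f5_an.ExtensionsOfFamilies
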