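import Pool.Agent.D0H14.KP.Piece

set_option autoImplicit false

/-!
# MP_5168f5: the Kakeya maximal conjecture for functions of one rational function

The Kakeya maximal estimate at the critical exponent `n`, with a logarithmic loss in place of
`δ ^ (-ε)`, for all functions `f` on `ℝ ^ n` of the form `f = g ∘ (P / Q)`, where `P` and `Q ≠ 0` are
polynomials of degree at most `D` and `g : ℝ → ℝ` is an **arbitrary** measurable function; the
constant depends on `n` and `D` only.

More generally `|f|` may be a sum of `D` such functions, each cut off to a set given by `D`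
polynomial inequalities of degree at most `D`.  In particular the estimate holds for the indicator
function of every measurable union of level sets of a polynomial: there is no bound on the number
of components of the intersections of such sets with lines.
-/

open MeasureTheory Set Filter Topology ENNReal NNReal Metric

namespace Pool.Agent.Results.MP_5168f5_an.PencilFunctions

/-- The value of the polynomial `p` at the point `x`. -/
noncomputable def value {n : ℕ} (p : MvPolynomial (Fin n) ℝ) (x : EuclideanSpace ℝ (Fin n)) : ℝ :=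
  MvPolynomial.eval (fun l => x l) p

/-- `|f|` is almost everywhere a sum `∑ i < D, 1_{A i} (x) * g i (P i (x) / Q i (x))`, where the
`P i` and `Q i ≠ 0` are polynomials of degree at most `D`, every `g i : ℝ → [0, ∞]` is an arbitrary
measurable function, and `A i` is the set where the polynomials `T i j` (`j < D`), of degree at
most `D`, are positive. -/
def PencilLE {n : ℕ} (D : ℕ) (f : EuclideanSpace ℝ (Fin n) → ℝ) : Prop :=
  ∃ (P Q : Fin D → MvPolynomial (Fin n) ℝ) (T : Fin D → Fin D → MvPolynomial (Fin n) ℝ)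
    (g : Fin D → ℝ → ℝ≥0∞),
    (∀ i, (P i).totalDegree ≤ D) ∧ (∀ i, (Q i).totalDegree ≤ D) ∧ (∀ i, Q i ≠ 0) ∧
    (∀ i j, (T i j).totalDegree ≤ D) ∧ (∀ i, Measurable (g i)) ∧
    ∀ᵐ x : EuclideanSpace ℝ (Fin n), ‖f x‖ₑ = ∑ i, {x | ∀ j, 0 < value (T i j) x}.indicator
      (fun x => g i (value (P i) x / value (Q i) x)) x

/-- The closed tube of length `1` and radius `δ` with centre `b` and axis direction `e`. -/
def tube {n : ℕ} (δ : ℝ) (e b : EuclideanSpace ℝ (Fin n)) : Set (EuclideanSpace ℝ (Fin n)) :=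
  {y | |inner ℝ (y - b) e| ≤ 1 / 2 ∧ ‖(y - b) - (inner ℝ (y - b) e : ℝ) • e‖ ≤ δ}

/-- The Kakeya maximal function. -/
noncomputable def kakeyaMax {n : ℕ} (δ : ℝ) (f : EuclideanSpace ℝ (Fin n) → ℝ)
    (e : EuclideanSpace ℝ (Fin n)) : ℝ≥0∞ :=
  ⨆ a : EuclideanSpace ℝ (Fin n), (volume (tube δ e a))⁻¹ * ∫⁻ y in tube δ e a, ‖f y‖ₑ

/-- The surface measure of the unit sphere. -/
noncomputable def surf (n : ℕ) : Measure (sphere (0 : EuclideanSpace ℝ (Fin n)) 1) :=
  (volume : Measure (EuclideanSpace ℝ (Fin n))).toSphere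

/-- **The Kakeya maximal conjecture for functions of one rational function** (and sums of such
functions cut off to semialgebraic sets).  For `n ≥ 2` and every `D` there is a constant `C` with
`∫ (f^*_δ) ^ n ≤ C (1 + log (1 / δ)) ^ (2 n + 3) ∫ |f| ^ n` for all `0 < δ < 1` and all `f` with
`PencilLE D f`, in particular for all `f = g ∘ (P / Q)` with `g : ℝ → ℝ` measurable and `P`,
`Q ≠ 0` polynomials of degree at most `D` (when `D ≥ 1`). -/
theorem result (n : ℕ) (hn : 2 ≤ n) (D : ℕ) : ∃ C : ℝ, 0 < C ∧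
    ∀ (δ : ℝ) (f : EuclideanSpace ℝ (Fin n) → ℝ), 0 < δ → δ < 1 → PencilLE D f →
      ∫⁻ e, kakeyaMax δ f (e : EuclideanSpace ℝ (Fin n)) ^ n ∂(surf n) ≤
        ENNReal.ofReal (C * (1 + Real.log (1 / δ)) ^ (2 * n + 3)) * ∫⁻ y, ‖f y‖ₑ ^ n := by
  obtain ⟨d, rfl⟩ : ∃ d, n = d + 1 := ⟨n - 1, by omega⟩
  have hd : 1 ≤ d := by omega
  have he : 2 * (d + 1) + 3 = 2 * d + 5 := by ring
  rw [he]
  obtain ⟨C, hC, h⟩ := Pool.Agent.D0H14.KP.many hd D (max D 1) D (le_max_right _ _)
  refine ⟨C, hC, ?_⟩
  rintro δ f hδ hδ1 ⟨P, Q, T, g, hP, hQ, hQ0, hT, hg, hf⟩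
  exact h P Q T (fun i => (hP i).trans (le_max_left _ _))
    (fun i => (hQ i).trans (le_max_left _ _)) hQ0
    (fun i j => (hT i j).trans (le_max_left _ _)) g hg δ hδ hδ1 f hf

end Pool.Agent.Results.MP_5168f5_an.PencilFunctions
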