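import Pool.Agent.D0H26.TS.Fin

set_option autoImplicit false

/-!
# MP_5168f5: the Kakeya maximal estimate for the tubes tangent to a sphere in `ℝ³`

`tangentMax δ f e` is the Kakeya maximal function `f^*_δ (e)` of `ℝ³` in which the supremum is
restricted to the tubes `T_e^δ(a)` whose axis line passes within `δ` of a point `P` of the unit
sphere at which `e` is a tangent direction (so that the axis is, up to a translation by at most
`δ`, a line tangent to the sphere).  For each direction `e` these are the tubes around a cylinder
about the sphere; there is no restriction on how the tube depends on `e`, nor on its position on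
the line (near the point of tangency, or far away).  This maximal function satisfies the estimate of
the Kakeya maximal conjecture, at the critical exponent `3`, with the loss `(1 + log (1/δ))^2`.

Proof.  The exterior of the sphere is the projective model of de Sitter space, and the map
`(t, x) ↦ ((1 - |x|² + t²) / (2 t), x / t)` of the Minkowski space `ℝ^{1,2}` is conformal
onto it: it sends the light ray `t ↦ (t, y + t w)` through the point `y` of the plane `t = 0` to
a half of the tangent line with the direction `((1 - |y|²) / 2, y)`.  So the directions are the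
points `y` of the space-like plane `t = 0`, and the problem becomes a Nikodym maximal estimate
over the light rays through the points of this plane, with a weight which is singular on the plane
and at infinity.  In the Fourier series in the angle of `w` and the Fourier transform in `y`, the
`H^{1/2}` norm in the angle of the integrals over the rays is computed exactly by a telescoping
identity for Bessel functions, which gives the `L²` estimate with the right weight; the exponent
`3` follows by Hölder's inequality with the weight `ρ + √δ`, where `ρ` is the distance from the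
point of tangency, on the shells `j ≤ ρ < j + 4`.
-/

open MeasureTheory Set ENNReal Metric

namespace Pool.Agent.Results.MP_5168f5_an.SphereTangentTubes

/-- The closed tube of length `1` and radius `δ` with centre `b` and axis direction `e`. -/
def tube (δ : ℝ) (e b : EuclideanSpace ℝ (Fin 3)) : Set (EuclideanSpace ℝ (Fin 3)) :=
  {y | |inner ℝ (y - b) e| ≤ 1 / 2 ∧ ‖(y - b) - (inner ℝ (y - b) e : ℝ) • e‖ ≤ δ}

/-- Supremum of the averages of `|f|` over the `δ`-tubes with direction `e` whose axis line
(through the centre `a`) passes at distance at most `δ` from a point `P` of the unit sphere such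
that `e` is a tangent direction at `P`. -/
noncomputable def tangentMax (δ : ℝ) (f : EuclideanSpace ℝ (Fin 3) → ℝ)
    (e : EuclideanSpace ℝ (Fin 3)) : ℝ≥0∞ :=
  ⨆ (a : EuclideanSpace ℝ (Fin 3)) (P : EuclideanSpace ℝ (Fin 3))
    (_ : ‖P‖ = 1) (_ : inner ℝ P e = 0)
    (_ : ‖(a - P) - (inner ℝ (a - P) e : ℝ) • e‖ ≤ δ),
      (volume (tube δ e a))⁻¹ * ∫⁻ y in tube δ e a, ‖f y‖ₑ

/-- **The Kakeya maximal estimate for the tubes tangent to the unit sphere of `ℝ³`**, at the
critical exponent `3`, with a logarithmic loss.  The restricted maximal function is at most a Borel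
function `H` of the direction with the stated bound. -/
theorem result : ∃ C : ℝ, 0 < C ∧
    ∀ (δ : ℝ) (f : EuclideanSpace ℝ (Fin 3) → ℝ), 0 < δ → δ < 1 → AEMeasurable f volume →
      ∃ H : EuclideanSpace ℝ (Fin 3) → ℝ≥0∞, Measurable H ∧
        (∀ e ∈ sphere (0 : EuclideanSpace ℝ (Fin 3)) 1, tangentMax δ f e ≤ H e) ∧
        ∫⁻ e : sphere (0 : EuclideanSpace ℝ (Fin 3)) 1, H e ^ 3
            ∂(volume : Measure (EuclideanSpace ℝ (Fin 3))).toSphere
          ≤ ENNReal.ofReal (C * (1 + Real.log (1 / δ)) ^ 2) * ∫⁻ y, ‖f y‖ₑ ^ 3 := by
  obtain ⟨C, hC, hmain⟩ := Pool.Agent.D0H26.TS.main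
  refine ⟨C, hC, ?_⟩
  intro δ f hδ hδ1 hf
  obtain ⟨H, hH, hle, hint⟩ := hmain δ (fun y => ‖hf.mk f y‖ₑ) hδ hδ1 hf.measurable_mk.enorm
  refine ⟨H, hH, ?_, ?_⟩
  · intro e he
    have he1 : ‖e‖ = 1 := by simpa using he
    unfold tangentMax
    refine iSup_le fun a => iSup_le fun P => iSup_le fun hP => iSup_le fun hT => iSup_le fun ha => ?_
    have h1 : ∫⁻ y in tube δ e a, ‖f y‖ₑ = ∫⁻ y in tube δ e a, ‖hf.mk f y‖ₑ := by
      apply lintegral_congr_ae
      filter_upwards [ae_restrict_of_ae hf.ae_eq_mk] with y hy
      rw [hy]
    rw [h1]
    exact hle e a P he1 hP hT ha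
  · have h2 : ∫⁻ y, ‖f y‖ₑ ^ 3 = ∫⁻ y, ‖hf.mk f y‖ₑ ^ 3 := by
      apply lintegral_congr_ae
      filter_upwards [hf.ae_eq_mk] with y hy
      rw [hy]
    rw [h2]
    exact hint

end Pool.Agent.Results.MP_5168f5_an.SphereTangentTubes
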