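import Pool.Agent.D0H26.WF.MaxF

set_option autoImplicit false

/-!
# MP_5168f5: the Kakeya maximal estimate for families of lines that form wave fronts

Work in `ℝ^{d+1} = ℝ^d × ℝ` (`Space d`), `n = d + 1 ≥ 3`.  For `v` in the closed unit ball of `ℝ^d`
the line number `v` of the family given by `b : ℝ^d → ℝ^d` is `{(b v + s v, s) : s ∈ ℝ}`; its
direction is `(v, 1)`.  Think of the height `s` as the time and of the line as a particle which
moves with the velocity `v`.  `lineMax δ b f v` is the supremum of the averages of `|f|` over the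
`δ`-tubes of length one with axis on the line number `v`.

The particles with the same speed `c = |v|` and in the same class `κ v` (there are `N` classes)
form a *wave front* during a time interval if no two of their space-time points are closer in space
than `c |s - s'|`, that is, if no point of one of the world lines is inside the light cone (for
the speed `c`) of a point of another one.  Examples:

* the particles start, or meet, or would meet, at one point of space-time (a flash, or an
  implosion), which may depend on the class and on the speed in an arbitrary measurable way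
  (`vertexFamily`; for instance `b v = P (|v|)`);
* at the time `s₀` the particle with velocity `v` is at a point where the linear form `⟨·, v⟩`
  attains its maximum on a set `K` (the outgoing wave front of `K`); the set `K` may depend on the
  class and on the speed in an arbitrary way (`Supporting`).

There is no condition that relates the particles of one speed to those of another speed; the
fronts of different speeds may cross each other as often as they like, and no regularity in the
speed is assumed.

* **(General estimate.)**  If for almost every `s ∈ T` every line with `v ∈ B` takes part, at the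
  height `s`, in one of `M` systems of wave fronts with `N` classes, then the maximal function of
  the family satisfies for all `p ≥ n` the `L^p` estimate of the Kakeya conjecture for the
  functions that live at the heights in `T`, with constant `C M^p N` and loss
  `(1 + log (1/δ))^{p+1}`.
* **(Flashes.)**  The estimate, for all heights, for the families of lines with one vertex for
  each class and each speed.
* **(Emission from arbitrary sets.)**  The estimate for the heights above `s₀`.

Proof: if a slower particle crosses the front of a faster class, it stays in its `δ`-neighbourhood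
only for a time `≤ 4 δ / (c' - c)`; and at every moment the front of a class is spread: the
velocities at a place are determined up to `δ / ρ` at the distance `ρ` from the end of the life of
the front.  So the kernel `K (v, v')` of the operator `T T^*` has
`∫_{|v| ≤ |v'|} K (v, v') dv ≤ C N log (1/δ)`, and only this half of Schur's condition; this is
enough for a restricted (weak) estimate on `L²` (an *ordered* Schur test), hence for the estimates
for `p > 2` by interpolation.
-/

open MeasureTheory Set Filter Topology ENNReal NNReal Metric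

namespace Pool.Agent.Results.MP_5168f5_an.WaveFrontFamilies

open Pool.Agent.H803R2.KakFTO

/-- `∫_B (lineMax δ b f)^p ≤ A (1 + log (1/δ))^(p+1) ∫ |f|^p` for all `0 < δ < 1` and all measurable
functions `f` that vanish at the heights outside `T`. -/
def Bound {d : ℕ} (p A : ℝ) (T : Set ℝ) (B : Set (Vec d)) (b : Vec d → Vec d) : Prop :=
  ∀ (δ : ℝ) (f : Space d → ℝ), 0 < δ → δ < 1 → AEMeasurable f volume →
    (∀ (y : Vec d) (t : ℝ), t ∉ T → f (WithLp.toLp 2 (y, t)) = 0) →
    ∫⁻ v in B, lineMax δ b f v ^ p
      ≤ ENNReal.ofReal (A * (1 + Real.log (1 / δ)) ^ (p + 1)) * ∫⁻ y, ‖f y‖ₑ ^ p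

/-- The lines number `v ∈ B` with the same `|v|` and the same class `κ v` have the same life time
`(α v, β v)` and form a wave front during their life: two points of such lines, at the heights `s`
and `s'`, are never closer in space than `|v| |s - s'|`. -/
def WaveFront {d N : ℕ} (κ : Vec d → Fin N) (B : Set (Vec d)) (b : Vec d → Vec d)
    (α β : Vec d → EReal) : Prop :=
  ∀ v ∈ B, ∀ v' ∈ B, ‖v‖ = ‖v'‖ → κ v = κ v' → α v = α v' ∧ β v = β v' ∧
    ∀ s s' : ℝ, α v < s → (s : EReal) < β v → α v < s' → (s' : EReal) < β v →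
      ‖v‖ * |s - s'| ≤ ‖(b v + s • v) - (b v' + s' • v')‖

/-- There are `M` systems of wave fronts, each with `N` classes, such that at almost every height
in `T` every line takes part in one of the systems. -/
def Covered {d : ℕ} (M N : ℕ) (T : Set ℝ) (B : Set (Vec d)) (b : Vec d → Vec d) : Prop :=
  ∃ (κ : Fin M → Vec d → Fin N) (α β : Fin M → Vec d → EReal),
    (∀ i, Measurable (κ i) ∧ Measurable (α i) ∧ Measurable (β i) ∧
      WaveFront (κ i) B b (α i) (β i)) ∧
    ∀ v ∈ B, ∀ᵐ s : ℝ, s ∈ T → ∃ i, α i v < s ∧ (s : EReal) < β i v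

/-- The family in which all lines with the same `|v|` and the same class pass through one point:
the point `P (κ v) |v|` at the height `τ (κ v) |v|`. -/
noncomputable def vertexFamily {d N : ℕ} (κ : Vec d → Fin N) (P : Fin N → ℝ → Vec d)
    (τ : Fin N → ℝ → ℝ) (v : Vec d) : Vec d :=
  P (κ v) ‖v‖ - τ (κ v) ‖v‖ • v

/-- At the height `s₀` the line number `v` is at a point of the set `K (κ v) |v|` where the linear
form `⟨·, v⟩` attains its maximum on this set. -/
def Supporting {d N : ℕ} (κ : Vec d → Fin N) (K : Fin N → ℝ → Set (Vec d)) (s₀ : ℝ)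
    (B : Set (Vec d)) (b : Vec d → Vec d) : Prop :=
  ∀ v ∈ B, b v + s₀ • v ∈ K (κ v) ‖v‖ ∧
    ∀ x ∈ K (κ v) ‖v‖, inner ℝ x v ≤ inner ℝ (b v + s₀ • v) v

theorem Bound.mono {d : ℕ} {p A A' : ℝ} {T : Set ℝ} {B : Set (Vec d)} {b : Vec d → Vec d}
    (h : Bound p A T B b) (hA : A ≤ A') : Bound p A' T B b := by
  intro δ f hδ hδ1 hf hfT
  refine (h δ f hδ hδ1 hf hfT).trans ?_
  have hlog : 0 ≤ Real.log (1 / δ) := Real.log_nonneg (by rw [le_div_iff₀ hδ]; linarith)
  gcongr

/-- The first system of fronts of a vertex family: after the flash. -/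
theorem front_after {d N : ℕ} (κ : Vec d → Fin N) (P : Fin N → ℝ → Vec d) (τ : Fin N → ℝ → ℝ)
    (B : Set (Vec d)) :
    WaveFront κ B (vertexFamily κ P τ) (fun v => ((τ (κ v) ‖v‖ : ℝ) : EReal)) (fun _ => ⊤) := by
  intro v _ v' _ hn hκ
  refine ⟨by simp only [hn, hκ], rfl, ?_⟩
  intro s s' h1 _ h2 _
  rw [EReal.coe_lt_coe_iff] at h1 h2
  have e : (vertexFamily κ P τ v + s • v) - (vertexFamily κ P τ v' + s' • v')
      = (s - τ (κ v) ‖v‖) • v - (s' - τ (κ v) ‖v‖) • v' := by
    unfold vertexFamily
    rw [← hn, ← hκ, sub_smul, sub_smul]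
    abel
  rw [e]
  refine le_trans ?_ (abs_norm_sub_norm_le _ _)
  set t₀ := τ (κ v) ‖v‖ with ht₀
  have k1 : |s - t₀| = s - t₀ := abs_of_pos (by linarith)
  have k2 : |s' - t₀| = s' - t₀ := abs_of_pos (by linarith)
  rw [norm_smul, norm_smul, Real.norm_eq_abs, Real.norm_eq_abs, k1, k2, ← hn, ← sub_mul, abs_mul,
    abs_of_nonneg (norm_nonneg v), mul_comm]
  apply le_of_eq
  congr 2
  ring

/-- The second system of fronts of a vertex family: before the implosion. -/
theorem front_before {d N : ℕ} (κ : Vec d → Fin N) (P : Fin N → ℝ → Vec d) (τ : Fin N → ℝ → ℝ)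
    (B : Set (Vec d)) :
    WaveFront κ B (vertexFamily κ P τ) (fun _ => ⊥) (fun v => ((τ (κ v) ‖v‖ : ℝ) : EReal)) := by
  intro v _ v' _ hn hκ
  refine ⟨rfl, by simp only [hn, hκ], ?_⟩
  intro s s' _ h1 _ h2
  rw [EReal.coe_lt_coe_iff] at h1 h2
  have e : (vertexFamily κ P τ v + s • v) - (vertexFamily κ P τ v' + s' • v')
      = (s - τ (κ v) ‖v‖) • v - (s' - τ (κ v) ‖v‖) • v' := by
    unfold vertexFamily
    rw [← hn, ← hκ, sub_smul, sub_smul]
    abel
  rw [e]
  refine le_trans ?_ (abs_norm_sub_norm_le _ _)
  set t₀ := τ (κ v) ‖v‖ with ht₀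
  have k1 : |s - t₀| = t₀ - s := by rw [abs_of_neg (by linarith)]; ring
  have k2 : |s' - t₀| = t₀ - s' := by rw [abs_of_neg (by linarith)]; ring
  rw [norm_smul, norm_smul, Real.norm_eq_abs, Real.norm_eq_abs, k1, k2, ← hn, ← sub_mul, abs_mul,
    abs_of_nonneg (norm_nonneg v), mul_comm, abs_sub_comm s s']
  apply le_of_eq
  congr 2
  ring

/-- Emission from arbitrary sets gives fronts. -/
theorem front_supporting {d N : ℕ} {κ : Vec d → Fin N} {K : Fin N → ℝ → Set (Vec d)} {s₀ : ℝ}
    {B : Set (Vec d)} {b : Vec d → Vec d} (h : Supporting κ K s₀ B b) :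
    WaveFront κ B b (fun _ => ((s₀ : ℝ) : EReal)) (fun _ => ⊤) := by
  have key : ∀ v ∈ B, ∀ v' ∈ B, ‖v‖ = ‖v'‖ → κ v = κ v' → ∀ s s' : ℝ, s₀ < s' → s' ≤ s →
      ‖v‖ * (s - s') ≤ ‖(b v + s • v) - (b v' + s' • v')‖ := by
    intro v hv v' hv' hn hκ s s' h1 h2
    by_cases hv0 : v = 0
    · rw [hv0, norm_zero, zero_mul]; positivity
    have hpos : 0 < ‖v‖ := norm_pos_iff.2 hv0
    have hx := (h v hv).2 (b v' + s₀ • v') (by rw [hκ, hn]; exact (h v' hv').1)
    have hin : inner ℝ v' v ≤ ‖v‖ * ‖v‖ := by
      have := real_inner_le_norm v' v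
      rwa [← hn] at this
    have e : (b v + s • v) - (b v' + s' • v')
        = ((b v + s₀ • v) - (b v' + s₀ • v')) + ((s - s₀) • v - (s' - s₀) • v') := by
      rw [sub_smul, sub_smul]; abel
    have hle : ‖v‖ * (s - s') * ‖v‖ ≤ inner ℝ ((b v + s • v) - (b v' + s' • v')) v := by
      rw [e, inner_add_left, inner_sub_left, inner_sub_left, real_inner_smul_left,
        real_inner_smul_left, real_inner_self_eq_norm_mul_norm]
      nlinarith [mul_le_mul_of_nonneg_left hin (by linarith : 0 ≤ s' - s₀)]
    have hcs := real_inner_le_norm ((b v + s • v) - (b v' + s' • v')) v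
    exact le_of_mul_le_mul_right (hle.trans hcs) hpos
  intro v hv v' hv' hn hκ
  refine ⟨rfl, rfl, ?_⟩
  intro s s' h1 _ h2 _
  rw [EReal.coe_lt_coe_iff] at h1 h2
  rcases le_total s' s with hs | hs
  · rw [abs_of_nonneg (by linarith)]
    exact key v hv v' hv' hn hκ s s' h2 hs
  · rw [abs_of_nonpos (by linarith), neg_sub, hn, norm_sub_rev]
    exact key v' hv' v hv hn.symm hκ.symm s' s h1 hs

/-- **Kakeya maximal estimate for families of lines that form wave fronts.** -/
theorem result : ∀ d : ℕ, 2 ≤ d → ∀ p : ℝ, (d : ℝ) + 1 ≤ p → ∃ C : ℝ, 0 < C ∧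
    -- general estimate
    (∀ (M N : ℕ) (T : Set ℝ) (B : Set (Vec d)) (b : Vec d → Vec d), MeasurableSet B →
      B ⊆ closedBall 0 1 → Measurable b → Covered M N T B b → Bound p (C * M ^ p * N) T B b) ∧
    -- flashes, with an arbitrary vertex for each class and each speed
    (∀ (N : ℕ) (κ : Vec d → Fin N) (P : Fin N → ℝ → Vec d) (τ : Fin N → ℝ → ℝ), Measurable κ →
      (∀ k, Measurable (P k)) → (∀ k, Measurable (τ k)) →
      Bound p (C * N) univ (closedBall 0 1) (vertexFamily κ P τ)) ∧
    -- emission from arbitrary sets, one for each class and each speed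
    (∀ (N : ℕ) (κ : Vec d → Fin N) (K : Fin N → ℝ → Set (Vec d)) (s₀ : ℝ) (B : Set (Vec d))
      (b : Vec d → Vec d), Measurable κ → MeasurableSet B → B ⊆ closedBall 0 1 → Measurable b →
      Supporting κ K s₀ B b → Bound p (C * N) (Ioi s₀) B b) := by
  intro d hd p hp
  obtain ⟨m, rfl⟩ : ∃ m, d = m + 1 := ⟨d - 1, by omega⟩
  have hm : 1 ≤ m := by omega
  have hp' : (m:ℝ) + 2 ≤ p := by
    have : (((m + 1 : ℕ) : ℝ)) = m + 1 := by push_cast; ring
    rw [this] at hp
    linarith
  have hp0 : 0 < p := by
    have : (0:ℝ) ≤ m := by positivity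
    linarith
  have hp2 : 2 < p := by
    have : (1:ℝ) ≤ m := by exact_mod_cast hm
    linarith
  have hcw := Pool.Agent.D0H26.WF.cw_nonneg m hp2
  have hcc : 0 ≤ Pool.Agent.D0H26.WF.cc m p := by unfold Pool.Agent.D0H26.WF.cc; positivity
  set C0 : ℝ := (8 * 8 ^ (m + 1)) ^ p * Pool.Agent.D0H26.WF.cc m p + 1 with hC0
  have hC0pos : 0 < C0 := by positivity
  have h2p : (1:ℝ) ≤ 2 ^ p := Real.one_le_rpow (by norm_num) hp0.le
  have main : ∀ (M N : ℕ) (T : Set ℝ) (B : Set (Vec (m + 1))) (b : Vec (m + 1) → Vec (m + 1)),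
      MeasurableSet B → B ⊆ closedBall 0 1 → Measurable b → Covered M N T B b →
      Bound p (C0 * M ^ p * N) T B b := by
    intro M N T B b hB hB1 hb hcov δ f hδ hδ1 hf hfT
    obtain ⟨κ, α, β, hfr, hT⟩ := hcov
    refine (Pool.Agent.D0H26.WF.covered (fun i => (hfr i).1) hB hB1 hb (fun i => (hfr i).2.1)
      (fun i => (hfr i).2.2.1) (fun i => ⟨fun v hv v' hv' hn hk =>
        ⟨((hfr i).2.2.2 v hv v' hv' hn hk).1, ((hfr i).2.2.2 v hv v' hv' hn hk).2.1⟩,
        fun v hv v' hv' hn hk => ((hfr i).2.2.2 v hv v' hv' hn hk).2.2⟩)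
      hT hδ hδ1 hp' hm hf hfT).trans ?_
    have hlog : 0 ≤ Real.log (1 / δ) := Real.log_nonneg (by rw [le_div_iff₀ hδ]; linarith)
    gcongr
    rw [hC0]
    linarith
  refine ⟨C0 * 2 ^ p, by positivity, ?_, ?_, ?_⟩
  · intro M N T B b hB hB1 hb hcov
    refine (main M N T B b hB hB1 hb hcov).mono ?_
    have h3 : C0 ≤ C0 * 2 ^ p := le_mul_of_one_le_right hC0pos.le h2p
    gcongr
  · intro N κ P τ hκ hP hτ
    have hτm : Measurable (fun v : Vec (m + 1) => τ (κ v) ‖v‖) := by
      have h1 : Measurable (fun q : Fin N × ℝ => τ q.1 q.2) :=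
        measurable_from_prod_countable_right fun k => hτ k
      exact h1.comp (hκ.prodMk measurable_norm)
    have hPm : Measurable (fun v : Vec (m + 1) => P (κ v) ‖v‖) := by
      have h1 : Measurable (fun q : Fin N × ℝ => P q.1 q.2) :=
        measurable_from_prod_countable_right fun k => hP k
      exact h1.comp (hκ.prodMk measurable_norm)
    have hb : Measurable (vertexFamily κ P τ) := by
      unfold vertexFamily
      exact hPm.sub (hτm.smul measurable_id)
    have hcov : Covered 2 N univ (closedBall 0 1) (vertexFamily κ P τ) := by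
      refine ⟨fun _ => κ, ![fun v => ((τ (κ v) ‖v‖ : ℝ) : EReal), fun _ => ⊥],
        ![fun _ => ⊤, fun v => ((τ (κ v) ‖v‖ : ℝ) : EReal)], ?_, ?_⟩
      · intro i
        fin_cases i
        · exact ⟨hκ, measurable_coe_real_ereal.comp hτm, measurable_const,
            front_after κ P τ _⟩
        · exact ⟨hκ, measurable_const, measurable_coe_real_ereal.comp hτm,
            front_before κ P τ _⟩
      · intro v _
        have h0 : ∀ᵐ s : ℝ, s ≠ τ (κ v) ‖v‖ := by
          rw [ae_iff]
          simp
        filter_upwards [h0] with s hs _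
        rcases lt_or_gt_of_ne hs with h | h
        · exact ⟨1, EReal.bot_lt_coe _, by
            change ((s : ℝ) : EReal) < ((τ (κ v) ‖v‖ : ℝ) : EReal)
            rwa [EReal.coe_lt_coe_iff]⟩
        · exact ⟨0, by
            change ((τ (κ v) ‖v‖ : ℝ) : EReal) < ((s : ℝ) : EReal)
            rwa [EReal.coe_lt_coe_iff], EReal.coe_lt_top _⟩
    refine (main 2 N univ _ _ isClosed_closedBall.measurableSet le_rfl hb hcov).mono ?_
    norm_num
  · intro N κ K s₀ B b hκ hB hB1 hb hS
    have hcov : Covered 1 N (Ioi s₀) B b := by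
      refine ⟨fun _ => κ, fun _ _ => ((s₀ : ℝ) : EReal), fun _ _ => ⊤, ?_, ?_⟩
      · intro i
        exact ⟨hκ, measurable_const, measurable_const, front_supporting hS⟩
      · intro v _
        refine ae_of_all _ fun s hs => ⟨0, ?_, EReal.coe_lt_top _⟩
        rw [EReal.coe_lt_coe_iff]
        exact hs
    refine (main 1 N (Ioi s₀) B b hB hB1 hb hcov).mono ?_
    have h3 : C0 ≤ C0 * 2 ^ p := le_mul_of_one_le_right hC0pos.le h2p
    rw [Nat.cast_one, Real.one_rpow, mul_one]
    gcongr

end Pool.Agent.Results.MP_5168f5_an.WaveFrontFamilies
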